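import Pool.Agent.H.MP_7a24ab_lc.A

set_option autoImplicit false
open Set Classical

namespace Pool.Agent.H.MP_a33cdf_gt
open Pool.Agent.H.MP_7a24ab_lc

noncomputable instance : OrderBot W := Ordinal.toTypeOrderBot (Cardinal.ord_eq_zero.not.2 (Cardinal.aleph_pos 1).ne')

lemma exidx (b : W) : ∃ f : W → ℕ, InjOn f (Iio b) := countable_iff_exists_injOn.1 (cIio b)
noncomputable def idx (b : W) : W → ℕ := (exidx b).choose
lemma idx_inj (b : W) : InjOn (idx b) (Iio b) := (exidx b).choose_spec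

def C (b x : W) : Prop := x < b ∧ ∀ y, x < y → y < b → idx b x < idx b y

lemma exnx (a b : W) : ∃ x, a < b → a ≤ x ∧ C b x ∧ ∀ y, a ≤ y → C b y → x ≤ y := by
  by_cases h : a < b
  · obtain ⟨x, ⟨x1, x2⟩, x3⟩ := (InvImage.wf (idx b) Nat.lt_wfRel.wf).has_min (Ico a b) ⟨a, le_rfl, h⟩
    refine ⟨x, fun _ => ⟨x1, ⟨x2, fun y y1 y2 => lt_of_le_of_ne (not_lt.1 (x3 y ⟨x1.trans y1.le, y2⟩))
      fun e => y1.ne (idx_inj b x2 y2 e)⟩, fun y y1 y2 => not_lt.1 fun k => x3 y ⟨y1, y2.1⟩ (y2.2 x k x2)⟩⟩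
  · exact ⟨a, fun k => (h k).elim⟩
noncomputable def nx (a b : W) : W := (exnx a b).choose
lemma nx1 {a b : W} (h : a < b) : a ≤ nx a b := ((exnx a b).choose_spec h).1
lemma nx2 {a b : W} (h : a < b) : C b (nx a b) := ((exnx a b).choose_spec h).2.1
lemma nx3 {a b y : W} (h : a < b) (h1 : a ≤ y) (h2 : C b y) : nx a b ≤ y := ((exnx a b).choose_spec h).2.2 y h1 h2

lemma Cfin {a b : W} (h : a < b) : {x | x < a ∧ C b x}.Finite :=
  Finite.of_finite_image ((finite_Iio (idx b a)).subset (by rintro _ ⟨x, hx, rfl⟩; exact hx.2.2 a hx.1 h))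
    ((idx_inj b).mono fun _ hx => hx.2.1)

noncomputable def Cf (b a : W) : Finset W := if h : a < b then (Cfin h).toFinset else ∅
lemma mem_Cf {a b x : W} (h : a < b) : x ∈ Cf b a ↔ x < a ∧ C b x := by simp [Cf, h]

noncomputable def code (a : W) : W → List (Finset W) :=
  (wellFounded_lt (α := W)).fix fun b r => if h : a < b then Cf b a :: r (nx a b) (nx2 h).1 else []
lemma code_lt {a b : W} (h : a < b) : code a b = Cf b a :: code a (nx a b) := by
  rw [code, WellFounded.fix_eq]; simp [h, code]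
lemma code_ge {a b : W} (h : ¬ a < b) : code a b = [] := by
  rw [code, WellFounded.fix_eq]; simp [h]

lemma code_mem {a : W} (b : W) : ∀ s ∈ code a b, ∀ x ∈ s, x < a := by
  induction b using WellFoundedLT.induction with
  | ind b ih =>
  by_cases h : a < b
  · rw [code_lt h]
    intro s hs x hx
    rcases List.mem_cons.1 hs with rfl | hs
    · exact ((mem_Cf h).1 hx).1
    · exact ih _ (nx2 h).1 s hs x hx
  · simp [code_ge h]

lemma nx_eq {a d b : W} (h : a ≤ d) (hb : d < b) (k : ∀ x ∈ Cf b d, x < a) : nx a b = nx d b :=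
  le_antisymm (nx3 (h.trans_lt hb) (h.trans (nx1 hb)) (nx2 hb)) (nx3 hb (not_lt.1 fun q =>
    (k _ ((mem_Cf hb).2 ⟨q, nx2 (h.trans_lt hb)⟩)).not_ge (nx1 (h.trans_lt hb))) (nx2 (h.trans_lt hb)))

lemma cat {a d : W} (h : a ≤ d) (b : W) : d ≤ b → (∀ s ∈ code d b, ∀ x ∈ s, x < a) →
    code a b = code d b ++ code a d := by
  induction b using WellFoundedLT.induction with
  | ind b ih =>
  intro hb k
  rcases hb.eq_or_lt with rfl | hb
  · simp [code_ge]
  rw [code_lt hb] at k ⊢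
  have k1 := k _ List.mem_cons_self
  rw [code_lt (h.trans_lt hb), nx_eq h hb k1, ih _ (nx2 hb).1 (nx1 hb) fun s hs => k s (List.mem_cons_of_mem _ hs)]
  congr 1
  ext x
  rw [mem_Cf hb, mem_Cf (h.trans_lt hb)]
  exact ⟨fun q => ⟨q.1.trans_le h, q.2⟩, fun q => ⟨k1 x ((mem_Cf hb).2 q), q.2⟩⟩

lemma det {a d : W} (h : a ≤ d) (b : W) : ∀ b', d ≤ b → d ≤ b' → code d b = code d b' → code a b = code a b' := by
  induction b using WellFoundedLT.induction with
  | ind b ih =>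
  intro b' hb hb' k
  rcases hb.eq_or_lt with rfl | hb <;> rcases hb'.eq_or_lt with rfl | hb'
  · rfl
  · simp [code_lt hb', code_ge] at k
  · simp [code_lt hb, code_ge] at k
  rw [code_lt hb, code_lt hb', List.cons.injEq] at k
  have q : ∀ x < d, C b x ↔ C b' x := fun x hx => by
    have := Finset.ext_iff.1 k.1 x
    simpa [mem_Cf hb, mem_Cf hb', hx] using this
  have ab := h.trans_lt hb
  have ab' := h.trans_lt hb'
  rw [code_lt ab, code_lt ab']
  congr 1
  · ext x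
    rw [mem_Cf ab, mem_Cf ab']
    exact and_congr_right fun hx => q x (hx.trans_le h)
  by_cases w : ∀ x ∈ Cf b d, x < a
  · rw [nx_eq h hb w, nx_eq h hb' (k.1 ▸ w)]
    exact ih _ (nx2 hb).1 _ (nx1 hb) (nx1 hb') k.2
  push Not at w
  obtain ⟨x, x1, x2⟩ := w
  have x3 := (mem_Cf hb).1 x1
  have l1 := nx3 ab x2 x3.2
  have l2 := nx3 ab' x2 ((q x x3.1).1 x3.2)
  rw [le_antisymm (nx3 ab (nx1 ab') ((q _ (l2.trans_lt x3.1)).2 (nx2 ab')))
    (nx3 ab' (nx1 ab) ((q _ (l1.trans_lt x3.1)).1 (nx2 ab)))]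

def Lim (d : W) : Prop := ⊥ < d ∧ ∀ x < d, ∃ y, x < y ∧ y < d

lemma Lim.fin {d : W} (h : Lim d) {S : Set W} (hS : S.Finite) (k : ∀ x ∈ S, x < d) : ∃ g < d, ∀ x ∈ S, x < g := by
  obtain ⟨y, y1, y2⟩ := h.2 (hS.toFinset.sup id) ((Finset.sup_lt_iff h.1).2 fun x hx => k x (by simpa using hx))
  exact ⟨y, y2, fun x hx => (Finset.le_sup (f := id) (by simpa using hx)).trans_lt y1⟩

noncomputable def e (b x : W) : ℕ := (code x b).toFinset.sup Finset.card

lemma big {d : W} (h : Lim d) (n : ℕ) : ∃ g < d, ∀ x, g ≤ x → x < d → n ≤ (Cf d x).card := by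
  induction n with
  | zero => exact ⟨⊥, h.1, fun _ _ _ => Nat.zero_le _⟩
  | succ n ih =>
  obtain ⟨g, g1, g2⟩ := ih
  obtain ⟨y, y1, y2⟩ := h.2 _ (nx2 g1).1
  refine ⟨y, y2, fun x x1 x2 => (g2 g le_rfl g1).trans_lt (Finset.card_lt_card ⟨fun z hz => ?_, fun k => ?_⟩)⟩
  · exact (mem_Cf x2).2 ⟨((mem_Cf g1).1 hz).1.trans_le ((nx1 g1).trans (y1.le.trans x1)), ((mem_Cf g1).1 hz).2⟩
  · exact ((mem_Cf g1).1 (k ((mem_Cf x2).2 ⟨y1.trans_le x1, nx2 g1⟩))).1.not_ge (nx1 g1)

lemma Lim.cd {d : W} (h : Lim d) (b : W) : ∃ g < d, ∀ s ∈ code d b, ∀ x ∈ s, x < g := by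
  obtain ⟨g, g1, g2⟩ := h.fin ((code d b).toFinset.biUnion id).finite_toSet fun x hx => by
    simp only [Finset.coe_biUnion, mem_iUnion] at hx
    obtain ⟨s, s1, s2⟩ := hx
    exact code_mem b s (by simpa using s1) x s2
  exact ⟨g, g1, fun s hs x hx => g2 x (by simpa using ⟨s, hs, hx⟩)⟩

lemma tail {d b : W} (h : Lim d) (hb : d ≤ b) (n : ℕ) :
    ∃ g < d, ∀ x, g ≤ x → x < d → e b x = e d x ∧ n < e d x := by
  obtain ⟨g, g1, g2⟩ := big h (max (n + 1) (e b d))
  obtain ⟨g', g3, g4⟩ := h.cd b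
  refine ⟨max g g', max_lt g1 g3, fun x x1 x2 => ?_⟩
  have : max (n + 1) (e b d) ≤ e d x := (g2 x (le_of_max_le_left x1) x2).trans (Finset.le_sup (f := Finset.card)
    (by simp [code_lt x2]))
  refine ⟨?_, le_of_max_le_left this⟩
  rw [e, cat x2.le b hb fun s hs y hy => (g4 s hs y hy).trans_le (le_of_max_le_right x1), List.toFinset_append,
    Finset.sup_union]
  exact max_eq_right (le_of_max_le_right this)

noncomputable def run : W → List (Finset W) → List W
  | _, [] => []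
  | m, s :: l => max m (s.sup id) :: run (max m (s.sup id)) l

lemma run_ge (l : List (Finset W)) : ∀ m, ∀ x ∈ run m l, m ≤ x := by
  induction l with
  | nil => simp [run]
  | cons s l ih =>
    intro m x hx
    rcases List.mem_cons.1 hx with rfl | hx
    · exact le_max_left _ _
    · exact le_of_max_le_left (ih _ x hx)

lemma run_le {g : W} (l : List (Finset W)) : ∀ m ≤ g, (∀ s ∈ l, ∀ x ∈ s, x ≤ g) → ∀ x ∈ run m l, x ≤ g := by
  induction l with
  | nil => simp [run]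
  | cons s l ih =>
    intro m hm k x hx
    have : max m (s.sup id) ≤ g := max_le hm (Finset.sup_le (k s List.mem_cons_self))
    rcases List.mem_cons.1 hx with rfl | hx
    · exact this
    · exact ih _ this (fun s hs => k s (List.mem_cons_of_mem _ hs)) x hx

lemma run_app {t : Finset W} {l' : List (Finset W)} (l : List (Finset W)) : ∀ m ≤ t.sup id,
    (∀ s ∈ l, ∀ x ∈ s, x ≤ t.sup id) → run m (l ++ t :: l') = run m l ++ run ⊥ (t :: l') := by
  induction l with
  | nil => intro m hm _; simp [run, hm]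
  | cons s l ih =>
    intro m hm k
    simp only [List.cons_append, run, List.cons.injEq, true_and]
    exact ih _ (max_le hm (Finset.sup_le (k s List.mem_cons_self))) fun s hs => k s (List.mem_cons_of_mem _ hs)

noncomputable def L (a b : W) : List W := run ⊥ (code a b)

lemma L_le {a b x : W} (h : x ∈ L a b) : x ≤ a :=
  run_le _ ⊥ bot_le (fun s hs y hy => (code_mem b s hs y hy).le) x h

lemma Lcat {a d b y : W} (h : a < d) (hb : d ≤ b) (y1 : C d y) (y2 : y < a) (k : ∀ s ∈ code d b, ∀ x ∈ s, x ≤ y) :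
    L a b = L d b ++ L a d ∧ L a d ≠ [] ∧ ∀ x ∈ L a d, y ≤ x := by
  have q : y ≤ (Cf d a).sup id := Finset.le_sup (f := id) ((mem_Cf h).2 ⟨y2, y1⟩)
  rw [L, L, L, cat h.le b hb fun s hs x hx => (k s hs x hx).trans_lt y2, code_lt h]
  refine ⟨run_app _ ⊥ bot_le fun s hs x hx => (k s hs x hx).trans q, by simp [run], fun x hx => q.trans ?_⟩
  rcases List.mem_cons.1 hx with rfl | hx
  · exact le_max_right _ _
  · exact le_of_max_le_right (run_ge _ _ x hx)

end Pool.Agent.H.MP_a33cdf_gt
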