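import Pool.Agent.H.MP_a33cdf_gt.A

set_option autoImplicit false
open Set Classical

namespace Pool.Agent.H.MP_a33cdf_gt
open Pool.Agent.H.MP_7a24ab_lc

lemma clos {P K : Type} [Countable K] (lv : P → W → Prop) (hc : ∀ g, {p | lv p g}.Countable) (R : K → P → W → Prop) :
    ∃ d, Lim d ∧ ∀ k p g, g < d → lv p g → (∃ x, R k p x) → ∃ x < d, R k p x := by
  have : ∀ k p, ∃ x, (∃ x, R k p x) → R k p x := fun k p => by
    by_cases h : ∃ x, R k p x
    · exact ⟨h.choose, fun _ => h.choose_spec⟩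
    · exact ⟨⊥, fun q => (h q).elim⟩
  choose f hf using this
  have : ∀ g, ∃ s, g < s ∧ ∀ k p g', g' < g → lv p g' → f k p < s := fun g => by
    obtain ⟨s, hs⟩ := bdd ((countable_iUnion fun k => (cIio g).biUnion fun g' _ => (hc g').image (f k)).insert g)
    exact ⟨s, hs g (.inl rfl), fun k p g' h1 h2 => hs _ (.inr (mem_iUnion.2 ⟨k, mem_biUnion h1 ⟨p, h2, rfl⟩⟩))⟩
  choose s s1 s2 using this
  obtain ⟨u, hu⟩ := bdd (countable_range fun n => s^[n] ⊥)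
  obtain ⟨d, d1, d2⟩ := (wellFounded_lt (α := W)).has_min {u | ∀ n, s^[n] ⊥ < u} ⟨u, fun n => hu _ ⟨n, rfl⟩⟩
  have d3 : ∀ x < d, ∃ n, x < s^[n] ⊥ := fun x hx => by
    by_contra! k
    refine d2 x (fun n => (s1 _).trans_le ?_) hx
    rw [← Function.iterate_succ_apply' s]; exact k _
  refine ⟨d, ⟨d1 0, fun x hx => (d3 x hx).imp' (fun n => s^[n] ⊥) fun n h => ⟨h, d1 n⟩⟩, fun k p g g1 g2 h => ?_⟩
  obtain ⟨n, hn⟩ := d3 g g1
  exact ⟨_, (s2 _ k p g hn g2).trans (by rw [← Function.iterate_succ_apply' s]; exact d1 _), hf k p h⟩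

lemma pig {K : Type} [Countable K] (f : W → K) : ∃ k, ∀ g, ∃ y, g ≤ y ∧ f y = k := by
  by_contra! h
  choose g hg using h
  obtain ⟨u, hu⟩ := bdd (countable_range g)
  exact hg _ u (hu _ ⟨_, rfl⟩).le rfl

def sm (g : W) (l : List (Finset W)) : Prop := ∀ s ∈ l, ∀ x ∈ s, x < g
lemma sm_c (g : W) : {l | sm g l}.Countable := by
  have := (cIio g).to_subtype
  refine (countable_range fun l : List (Finset (Iio g)) => l.map (Finset.map (.subtype _))).mono fun l hl => ?_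
  refine ⟨l.map (Finset.subtype _), ?_⟩
  dsimp only
  rw [List.map_map]
  conv_rhs => rw [← l.map_id]
  exact List.map_congr_left fun s hs => Finset.subtype_map_of_mem (hl s hs)

variable {ι : Type} [Finite ι]

lemma Lim.all {d : W} (h : Lim d) {Q : ι → W → Prop} (k : ∀ i, ∃ g < d, ∀ x, g ≤ x → x < d → Q i x) :
    ∃ g < d, ∀ x, g ≤ x → x < d → ∀ i, Q i x := by
  choose g g1 g2 using k
  obtain ⟨u, u1, u2⟩ := h.fin (finite_range g) (by rintro _ ⟨i, rfl⟩; exact g1 i)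
  exact ⟨u, u1, fun x x1 x2 i => g2 i x ((u2 _ ⟨i, rfl⟩).le.trans x1) x2⟩

lemma gam {A : (ι → W) → Prop} (hA : ∀ g, ∃ a, A a ∧ ∀ i, g ≤ a i) : ∃ x, ∀ n (l : List W), (∀ y ∈ l, x ≤ y) →
    ∀ g, ∃ a, A a ∧ ∀ i, g ≤ a i ∧ ∀ y ∈ l, n < e (a i) y := by
  by_contra! h
  choose n l l1 g hg using h
  obtain ⟨k, hk⟩ := pig n
  obtain ⟨d, d1, d2⟩ := clos (K := Unit) (fun p g => p = g) (fun g => countable_singleton g)
    fun _ p x => ∃ y, p ≤ y ∧ n y = k ∧ g y < x ∧ ∀ z ∈ l y, z < x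
  obtain ⟨a, a1, a2⟩ := hA d
  obtain ⟨u, u1, u2⟩ := d1.all fun i => tail d1 (a2 i) k
  obtain ⟨x, x1, y, y1, y2, y3, y4⟩ := d2 () u u u1 rfl (by
    obtain ⟨y, y1, y2⟩ := hk u
    obtain ⟨x, hx⟩ := bdd ((l y).finite_toSet.countable.insert (g y))
    exact ⟨x, y, y1, y2, hx _ (.inl rfl), fun z hz => hx z (.inr hz)⟩)
  obtain ⟨i, hi⟩ := hg y a a1
  obtain ⟨z, z1, z2⟩ := hi ((y3.trans x1).le.trans (a2 i))
  have := u2 z (y1.trans (l1 y z z1)) ((y4 z z1).trans x1) i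
  omega

def st (s : ℕ × Bool) (x : Bool) : ℕ × Bool := (if s.2 = true ∧ x = false then s.1 + 1 else s.1, x)
noncomputable def S (a b : W) (s : ℕ × Bool) (l : List W) : ℕ × Bool :=
  (l.map fun x => decide (e a x ≤ e b x)).foldl st s
noncomputable def osc (a b : W) : ℕ := (S a b (0, false) (L a b)).1

lemma S_app (a b : W) (s : ℕ × Bool) (l l' : List W) : S a b s (l ++ l') = S a b (S a b s l) l' := by simp [S]
lemma S_congr {a b a' b' : W} (s : ℕ × Bool) {l : List W} (h : ∀ x ∈ l, e a' x = e a x ∧ e b' x = e b x) :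
    S a' b' s l = S a b s l := by
  unfold S; congr 1; exact List.map_congr_left fun x hx => by rw [(h x hx).1, (h x hx).2]
lemma S_const {a b : W} {r : Bool} {l : List W} (h : ∀ x ∈ l, decide (e a x ≤ e b x) = r) (hl : l ≠ []) (s : ℕ × Bool) :
    S a b s l = st s r := by
  induction l generalizing s with
  | nil => exact (hl rfl).elim
  | cons x l ih =>
    have : S a b s (x :: l) = S a b (st s r) l := by simp [S, h x List.mem_cons_self]
    rw [this]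
    by_cases k : l = []
    · simp [k, S]
    · rw [ih (fun y hy => h y (List.mem_cons_of_mem _ hy)) k]; cases r <;> simp [st]
lemma S_add (a b : W) (l : List W) : ∀ c m p, (S a b (c + m, p) l).1 = (S a b (c, p) l).1 + m := by
  induction l with
  | nil => simp [S]
  | cons x l ih =>
    intro c m p
    have : ∀ s, S a b s (x :: l) = S a b (st s (decide (e a x ≤ e b x))) l := by simp [S]
    rw [this, this, st, st]
    split_ifs
    · rw [Nat.add_right_comm]; exact ih _ _ _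
    · exact ih _ _ _

lemma e_det {g a a' x : W} (h : g ≤ a) (h' : g ≤ a') (k : code g a = code g a') (hx : x ≤ g) : e a x = e a' x := by
  rw [e, e, det hx a a' h h' k]

lemma Lim.L {d b x : W} (h : Lim d) (hx : x ∈ L d b) : x < d := by
  obtain ⟨g, g1, g2⟩ := h.cd b
  exact (run_le _ ⊥ bot_le (fun s hs y hy => (g2 s hs y hy).le) x hx).trans_lt g1

theorem main2 {A : Set (ι → W)} (hA : ∀ g, ∃ a ∈ A, ∀ i, g ≤ a i) {I : Type} {b μ : I → W} (hμ : ∀ j, μ j ≤ b j)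
    (hI : ∀ g, ∃ j, g ≤ μ j) (n : ℕ) : ∃ a ∈ A, ∃ (y d : W) (j : ℕ → I), (∀ i, y < a i ∧ a i < d) ∧ ∀ m ≤ n, d ≤ μ (j m) ∧
      ∀ u i, y < u → u < d → code y u = code y (a i) → osc u (b (j m)) = osc u (b (j 0)) + m := by
  let P := W × (ι → List (Finset W)) × List (Finset W) × List (Finset W)
  let F : P → (ι → W) → Prop := fun p a => a ∈ A ∧ ∀ i, code p.1 (a i) = p.2.1 i
  let R : Fin 4 → P → W → Prop := ![fun p x => ¬ ∃ a, F p a ∧ ∀ i, x ≤ a i,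
    fun p x => ∀ n (l : List W), (∀ y ∈ l, x ≤ y) → ∀ g, ∃ a, F p a ∧ ∀ i, g ≤ a i ∧ ∀ y ∈ l, n < e (a i) y,
    fun p x => ∀ d, x ≤ d → ¬ (C d p.1 ∧ ∃ a j, F p a ∧ d ≤ μ j ∧ code p.1 (b j) = p.2.2.1 ∧ code d (b j) = p.2.2.2 ∧
      ∀ i, d ≤ a i ∧ ∀ y, p.1 ≤ y → y < d → e (a i) y ≤ e (b j) y),
    fun p x => ∃ a, F p a ∧ ∀ i, p.1 < a i ∧ a i < x]
  obtain ⟨d, hd, hR⟩ := clos (fun (p : P) g => p.1 ≤ g ∧ (∀ i, sm g (p.2.1 i)) ∧ sm g p.2.2.1 ∧ sm g p.2.2.2)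
    (fun g => (((cIio g).insert g).prod ((countable_pi fun _ : ι => sm_c g).prod ((sm_c g).prod (sm_c g)))).mono
      fun p hp => mem_prod.2 ⟨hp.1.eq_or_lt, mem_prod.2 ⟨by exact hp.2.1, mem_prod.2 hp.2.2⟩⟩) R
  have h0 : ∀ g < d, ∀ a ∈ A, (∀ i, d ≤ a i) → ∀ x, ∃ a', F (g, fun i => code g (a i), [], []) a' ∧ ∀ i, x ≤ a' i :=
    fun g hg a ha k x => by
      by_contra q
      obtain ⟨y, y1, y2⟩ := hR 0 (g, fun i => code g (a i), [], []) g hg
        ⟨le_rfl, fun i => code_mem _, by simp [sm], by simp [sm]⟩ ⟨x, q⟩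
      exact y2 ⟨a, ⟨ha, fun _ => rfl⟩, fun i => y1.le.trans (k i)⟩
  have step : ∀ T : Set W, T.Finite → (∀ x ∈ T, x < d) → ∀ a ∈ A, (∀ i, d ≤ a i) → ∀ j, d ≤ μ j → ∀ r : Bool,
      ∃ a' ∈ A, ∃ j', (∀ i, d ≤ a' i ∧ ∀ x ∈ T, e (a' i) x = e (a i) x) ∧ d ≤ μ j' ∧
        ∀ i, S (a' i) (b j') (0, false) (L d (b j')) = st (S (a i) (b j) (0, false) (L d (b j))) r := by
    intro T T1 T2 a ha a1 j hj r
    have bj := hj.trans (hμ j)
    obtain ⟨g, g1, g2⟩ := hd.fin (T1.union (L d (b j)).finite_toSet) (by rintro x (h | h); exacts [T2 x h, hd.L h])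
    obtain ⟨g', g3, g4⟩ := hR 1 (g, fun i => code g (a i), [], []) g g1
      ⟨le_rfl, fun i => code_mem _, by simp [sm], by simp [sm]⟩ (gam (h0 g g1 a ha a1))
    obtain ⟨u, u1, u2⟩ := hd.all fun i => tail hd (a1 i) 0
    obtain ⟨v, v1, v2⟩ := tail hd bj 0
    obtain ⟨w, w1, w2⟩ := hd.cd (b j)
    have z1 : max (max g g') (max u (max v w)) < d := by simp [*]
    have z2 := nx1 z1
    have z3 := nx2 z1
    generalize nx _ d = y at z2 z3
    simp only [max_le_iff] at z2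
    obtain ⟨⟨k1, k2⟩, k3, k4, k5⟩ := z2
    obtain ⟨d', d1, c1, a', j', f1, f2, f3, f4, f5⟩ : ∃ d', d < d' ∧ C d' y ∧ ∃ a' j',
        F (y, fun i => code y (a i), [], []) a' ∧ d' ≤ μ j' ∧ code y (b j') = code y (b j) ∧
        code d' (b j') = code d (b j) ∧ ∀ i, d' ≤ a' i ∧ ∀ z, y ≤ z → z < d' → e (a' i) z ≤ e (b j') z := by
      by_contra q
      obtain ⟨x, hx⟩ := bdd (countable_singleton d)
      obtain ⟨x, x1, x2⟩ := hR 2 (y, fun i => code y (a i), code y (b j), code d (b j)) y z3.1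
        ⟨le_rfl, fun i => code_mem _, code_mem _, fun s hs x hx => (w2 s hs x hx).trans_le k5⟩
        ⟨x, fun d' h1 h2 => q ⟨d', (hx d rfl).trans_le h1, h2⟩⟩
      exact x2 d x1.le ⟨z3, a, j, ⟨ha, fun _ => rfl⟩, hj, rfl, rfl, fun i => ⟨a1 i, fun z h1 h2 =>
        ((u2 z (k3.trans h1) h2 i).1.trans (v2 z (k4.trans h1) h2).1.symm).le⟩⟩
    have bj' := f2.trans (hμ j')
    obtain ⟨l1, l2, l3⟩ := Lcat d1 bj' c1 z3.1 fun s hs x hx => ((w2 s (f4 ▸ hs) x hx).trans_le k5).le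
    rw [show L d' (b j') = L d (b j) by rw [L, L, f4]] at l1
    have fin : ∀ a' ∈ A, (∀ i, d ≤ a' i ∧ code g (a' i) = code g (a i) ∧ ∀ x ∈ L d d', decide (e (a' i) x ≤ e (b j') x) = r) →
        ∃ a' ∈ A, ∃ j', (∀ i, d ≤ a' i ∧ ∀ x ∈ T, e (a' i) x = e (a i) x) ∧ d ≤ μ j' ∧
        ∀ i, S (a' i) (b j') (0, false) (L d (b j')) = st (S (a i) (b j) (0, false) (L d (b j))) r := fun a' h1 h2 => by
      have := fun i x hx => e_det (g1.le.trans (h2 i).1) (g1.le.trans (a1 i)) (h2 i).2.1 (g2 x hx).le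
      refine ⟨a', h1, j', fun i => ⟨(h2 i).1, fun x hx => this i x (.inl hx)⟩, d1.le.trans f2, fun i => ?_⟩
      rw [l1, S_app, S_const (h2 i).2.2 l2, S_congr _ fun x hx => ⟨this i x (.inr hx), e_det (z3.1.le.trans
        (d1.le.trans bj')) (z3.1.le.trans bj) f3 ((g2 x (.inr hx)).le.trans k1)⟩]
    cases r
    · obtain ⟨a', h1, h2⟩ := g4 ((L d d').toFinset.sup (e (b j'))) _ (fun x hx => k2.trans (l3 x hx)) d
      exact fin a' h1.1 fun i => ⟨(h2 i).1, h1.2 i, fun x hx => decide_eq_false (not_le.2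
        ((Finset.le_sup (by simpa using hx)).trans_lt ((h2 i).2 x hx)))⟩
    · have := fun i => d1.le.trans (f5 i).1
      exact fin a' f1.1 fun i => ⟨this i, det k1 _ _ (z3.1.le.trans (this i)) (z3.1.le.trans (a1 i)) (f1.2 i),
        fun x hx => decide_eq_true ((f5 i).2 x (l3 x hx) ((hd.L hx).trans d1))⟩
  have ind : ∀ n, ∃ a ∈ A, ∃ (j : ℕ → I) (c : ι → ℕ), (∀ i, d ≤ a i) ∧ ∀ m ≤ n, d ≤ μ (j m) ∧
      ∀ i, S (a i) (b (j m)) (0, false) (L d (b (j m))) = (c i + m, false) := fun n => by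
    induction n with
    | zero =>
      obtain ⟨a, ha, a1⟩ := hA d
      obtain ⟨j, hj⟩ := hI d
      obtain ⟨a', h1, j', h2, h3, h4⟩ := step ∅ finite_empty (by simp) a ha a1 j hj false
      exact ⟨a', h1, fun _ => j', _, fun i => (h2 i).1, fun m hm => ⟨h3, fun i => by
        rw [h4 i, Nat.le_zero.1 hm]; rfl⟩⟩
    | succ n ih =>
      obtain ⟨a, ha, j, c, a1, k⟩ := ih
      have T1 : (⋃ m ∈ Iic n, {x | x ∈ L d (b (j m))}).Finite := (finite_Iic n).biUnion fun m _ => List.finite_toSet _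
      have T2 : ∀ x ∈ ⋃ m ∈ Iic n, {x | x ∈ L d (b (j m))}, x < d := fun x hx => by
        obtain ⟨m, -, h⟩ := mem_iUnion₂.1 hx; exact hd.L h
      obtain ⟨a', h1, j', h2, h3, h4⟩ := step _ T1 T2 a ha a1 (j n) (k n le_rfl).1 true
      obtain ⟨a2, i1, j2, i2, i3, i4⟩ := step _ T1 T2 a' h1 (fun i => (h2 i).1) j' h3 false
      refine ⟨a2, i1, fun m => if m ≤ n then j m else j2, c, fun i => (i2 i).1, fun m hm => ?_⟩
      dsimp only
      split_ifs with h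
      · refine ⟨(k m h).1, fun i => (S_congr _ fun x hx => ⟨?_, rfl⟩).trans ((k m h).2 i)⟩
        exact ((i2 i).2 x (mem_biUnion h hx)).trans ((h2 i).2 x (mem_biUnion h hx))
      · refine ⟨i3, fun i => ?_⟩
        rw [i4, h4, (k n le_rfl).2, show m = n + 1 by omega]; rfl
  obtain ⟨a, ha, j, c, a1, k⟩ := ind n
  have bj := fun m : Iic n => (k m m.2).1.trans (hμ _)
  obtain ⟨u, u1, u2⟩ := hd.all fun m : Iic n => tail hd (bj m) 0
  obtain ⟨v, v1, v2⟩ := hd.all (Q := fun (m : Iic n) y => sm y (code d (b (j m)))) fun m =>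
    (hd.cd (b (j m))).imp fun g hg => ⟨hg.1, fun y y1 _ s hs x hx => (hg.2 s hs x hx).trans_le y1⟩
  have z1 := max_lt u1 v1
  have z2 := nx1 z1
  have z3 := nx2 z1
  generalize nx _ d = y at z2 z3
  obtain ⟨x, x1, a', f1, f2⟩ := hR 3 (y, fun i => code y (a i), [], []) y z3.1
    ⟨le_rfl, fun i => code_mem _, by simp [sm], by simp [sm]⟩ (by
      obtain ⟨a', f1, f2⟩ := h0 y z3.1 a ha a1 d
      obtain ⟨x, hx⟩ := bdd (countable_range a')
      exact ⟨x, a', f1, fun i => ⟨z3.1.trans_le (f2 i), hx _ ⟨i, rfl⟩⟩⟩)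
  have key : ∀ m ≤ n, ∀ u i, y < u → u < d → code y u = code y (a' i) →
      osc u (b (j m)) = (S u d (c i, false) (L u d)).1 + m := fun m hm u i w1 q u3 => by
    have q2 : sm y (code d (b (j m))) := v2 y (le_of_max_le_right z2) z3.1 ⟨m, hm⟩
    obtain ⟨l1, -, l3⟩ := Lcat (b := b (j m)) q (bj ⟨m, hm⟩) z3 w1 fun s hs x hx => (q2 s hs x hx).le
    rw [osc, l1, S_app, S_congr (a := a i) (b := b (j m)) (l := L d (b (j m))) _ fun z hz => ⟨e_det w1.le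
      (z3.1.le.trans (a1 i)) (u3.trans (f1.2 i)) (run_le _ ⊥ bot_le (fun s hs x hx => (q2 s hs x hx).le) z hz), rfl⟩,
      (k m hm).2, S_add, S_congr (a := u) (b := d) _ fun z hz => ⟨rfl, (u2 z ((le_of_max_le_left z2).trans (l3 z hz))
        ((L_le hz).trans_lt q) ⟨m, hm⟩).1⟩]
  refine ⟨a', f1.1, y, d, j, fun i => ⟨(f2 i).1, (f2 i).2.trans x1⟩, fun m hm => ⟨(k m hm).1, fun u i h1 h2 h3 => ?_⟩⟩
  rw [key m hm u i h1 h2 h3, key 0 (Nat.zero_le _) u i h1 h2 h3, add_zero]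

theorem main {A : Set (ι → W)} (hA : ∀ g, ∃ a ∈ A, ∀ i, g ≤ a i) {I : Type} {b μ : I → W} (hμ : ∀ j, μ j ≤ b j)
    (hI : ∀ g, ∃ j, g ≤ μ j) (n : ℕ) : ∃ a ∈ A, ∃ (j : ℕ → I) (c : ι → ℕ), ∀ m ≤ n, ∀ i,
      a i < μ (j m) ∧ osc (a i) (b (j m)) = c i + m := by
  obtain ⟨a, ha, y, d, j, h1, h2⟩ := main2 hA hμ hI n
  exact ⟨a, ha, j, _, fun m hm i => ⟨(h1 i).2.trans_le (h2 m hm).1, (h2 m hm).2 _ i (h1 i).1 (h1 i).2 rfl⟩⟩

lemma osc_det {d a b b' : W} (h : a ≤ d) (hb : d ≤ b) (hb' : d ≤ b') (k : code d b = code d b') : osc a b = osc a b' := by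
  rw [osc, osc, S_congr _ fun x hx => ⟨rfl, e_det hb' hb k.symm ((L_le hx).trans h)⟩, L, L, det h b b' hb hb' k]

end Pool.Agent.H.MP_a33cdf_gt
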