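import Pool.Agent.H.MP_a33cdf_gt.B

set_option autoImplicit false
open Set Classical

namespace Pool.Agent.H.MP_a33cdf_gt
open Pool.Agent.H.MP_7a24ab_lc

def q (j : ℕ) : ℕ := 2 ^ (j * j)
lemma q_pos (j : ℕ) : 0 < q j := Nat.two_pow_pos _
lemma q_gt (j : ℕ) : j < q j := Nat.lt_two_pow_self.trans_le (Nat.pow_le_pow_right two_pos (Nat.le_mul_self j))
lemma q_succ (j : ℕ) : q (j + 1) = q j * (2 * 2 ^ (2 * j)) := by unfold q; ring
lemma q_dvd {i j : ℕ} (h : i ≤ j) : q i ∣ q j := pow_dvd_pow _ (Nat.mul_le_mul h h)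

noncomputable def Hs (s : Set ℕ) (x : ℕ) : ZMod 2 := ∑ᶠ j, if j ∈ s then ((x / q j : ℕ) : ZMod 2) else 0

lemma Hadd (s : Set ℕ) {y j : ℕ} (h : (y + q j) / q (j + 1) = y / q (j + 1)) :
    Hs s (y + q j) = Hs s y + if j ∈ s then 1 else 0 := by
  rw [Hs, Hs, ← finsum_eq_single (fun i => if i = j then (if j ∈ s then (1 : ZMod 2) else 0) else 0) j (by simp +contextual)
    |>.trans (if_pos rfl), ← finsum_add_distrib]
  · refine finsum_congr fun i => ?_
    rcases lt_trichotomy i j with k | rfl | k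
    · obtain ⟨c, hc⟩ := q_dvd (Nat.succ_le_of_lt k)
      rw [hc, q_succ, mul_assoc, Nat.add_mul_div_left _ _ (q_pos i), if_neg k.ne]
      push_cast
      rw [show (2 : ZMod 2) = 0 from rfl]; simp
    · rw [Nat.add_div_right _ (q_pos i)]; split_ifs <;> simp_all
    · obtain ⟨c, hc⟩ := q_dvd (Nat.succ_le_of_lt k)
      rw [hc, ← Nat.div_div_eq_div_mul, ← Nat.div_div_eq_div_mul, h, if_neg k.ne', add_zero]
  · refine (finite_Iic y).subset fun i hi => by_contra fun k => hi ?_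
    simp [Nat.div_eq_of_lt ((not_le.1 k).trans (q_gt i))]
  · exact (finite_singleton j).subset fun i hi => by_contra fun k => hi (if_neg k)

lemma digits {T V : Type} (s0 : V → Set ℕ)
    (hs : ∀ (t : V) (a : Finset V), t ∉ a → ∀ N, ∃ j ≥ N, j ∈ s0 t ∧ ∀ u ∈ a, j ∉ s0 u) (κ : T → V)
    (a : Finset T) (hκ : InjOn κ a) : ∃ n, ∀ s : T → Set ℕ, (∀ u ∈ a, ∀ j ≤ n, j ∈ s u ↔ j ∈ s0 (κ u)) →
      ∀ (σ : T → ZMod 2) (x : T → ℕ), ∃ m ≤ n, ∀ u ∈ a, Hs (s u) (x u + m) = σ u := by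
  induction a using Finset.induction_on with
  | empty => exact ⟨0, fun _ _ _ _ => ⟨0, le_rfl, by simp⟩⟩
  | insert t a ht ih =>
  obtain ⟨n, hn⟩ := ih (hκ.mono (by simp))
  obtain ⟨j, j1, j2, j3⟩ := hs (κ t) (a.image κ) (fun k => by
    obtain ⟨u, u1, u2⟩ := Finset.mem_image.1 k
    exact ht (hκ (by simp [u1]) (by simp) u2 ▸ u1)) (max n (insert t a).card)
  refine ⟨2 * j * q j + n + q j, fun s hs σ x => ?_⟩
  have jn : j ≤ 2 * j * q j + n + q j := (q_gt j).le.trans (Nat.le_add_left _ _)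
  replace j2 := (hs t (by simp) j jn).2 j2
  replace j3 : ∀ u ∈ a, j ∉ s u := fun u hu k => j3 _ (Finset.mem_image_of_mem _ hu) ((hs u (by simp [hu]) j jn).1 k)
  replace hn := hn s fun u hu i hi => hs u (by simp [hu]) i (by omega)
  have nq := (le_of_max_le_left j1).trans_lt (q_gt j)
  obtain ⟨i, i1, i2⟩ : ∃ i ≤ j, ∀ u ∈ insert t a, (x u + 2 * (i + 1) * q j) / q (j + 1) ≤ (x u + 2 * i * q j) / q (j + 1) := by
    by_contra! k
    have : Nonempty T := ⟨t⟩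
    choose! f f1 f2 using k
    obtain ⟨i, i1, i', i2, i3, i4⟩ := Finset.exists_ne_map_eq_of_card_lt_of_maps_to (s := Finset.Iic j) (t := insert t a)
      (f := f) (by simpa [Nat.lt_succ_iff] using le_of_max_le_right j1) fun i hi => f1 i (by simpa using hi)
    wlog w : i < i' generalizing i i'
    · exact this i' i2 i i1 i3.symm i4.symm (by omega)
    have b1 := f2 i (by simpa using i1)
    have b2 := i4 ▸ f2 i' (by simpa using i2)
    have b3 : (x (f i) + 2 * (i + 1) * q j) / q (j + 1) ≤ (x (f i) + 2 * i' * q j) / q (j + 1) := by gcongr; omega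
    have b4 : (x (f i) + 2 * (i' + 1) * q j) / q (j + 1) ≤ (x (f i) + 2 * i * q j + q (j + 1)) / q (j + 1) := by
      refine Nat.div_le_div_right ?_
      have : i' + 1 ≤ 2 ^ (2 * j) := (Finset.mem_Iic.1 i2).trans_lt
        (Nat.lt_two_pow_self.trans_le (Nat.pow_le_pow_right two_pos (by omega)))
      rw [q_succ]; nlinarith [Nat.mul_le_mul_left (q j) this, Nat.zero_le (i * q j)]
    rw [Nat.add_div_right _ (q_pos _)] at b4
    omega
  obtain ⟨m, m1, m2⟩ := hn σ fun u => x u + 2 * i * q j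
  have l : 2 * i * q j ≤ 2 * j * q j := by gcongr
  by_cases h : Hs (s t) (x t + 2 * i * q j + m) = σ t
  · exact ⟨2 * i * q j + m, by omega, by simpa [← add_assoc, h] using m2⟩
  have key : ∀ u ∈ insert t a, _ := fun u hu => Hadd (s u) (y := x u + 2 * i * q j + m) (j := j) (le_antisymm
    ((Nat.div_le_div_right (by nlinarith)).trans ((i2 u hu).trans (Nat.div_le_div_right (Nat.le_add_right _ _))))
    (Nat.div_le_div_right (Nat.le_add_right _ _)))
  refine ⟨2 * i * q j + m + q j, by omega, fun u hu => ?_⟩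
  rw [← add_assoc, ← add_assoc, key u hu]
  rcases Finset.mem_insert.1 hu with rfl | hu
  · rw [if_pos j2]; revert h; generalize Hs _ _ = a; generalize σ u = b; revert a b; decide
  · rw [if_neg (j3 u hu), add_zero, m2 u hu]

lemma exS : ∃ s : W → Set ℕ, ∀ (t : W) (a : Finset W), t ∉ a → ∀ N, ∃ j ≥ N, j ∈ s t ∧ ∀ u ∈ a, j ∉ s u := by
  obtain ⟨r⟩ : Nonempty (W ↪ ℝ) := (Cardinal.le_def _ _).1 (by
    rw [cW, Cardinal.mk_real]; exact Cardinal.aleph_one_le_continuum)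
  refine ⟨fun t => {j | ∃ p : ℚ × ℚ, Encodable.encode p = (Nat.unpair j).2 ∧ p.1 < r t ∧ r t < p.2}, fun t a ht N => ?_⟩
  obtain ⟨l, u, h1, h2⟩ := mem_nhds_iff_exists_Ioo_subset.1 ((a.finite_toSet.image r).isClosed.isOpen_compl.mem_nhds
    (x := r t) (by simpa using ht))
  obtain ⟨x, x1, x2⟩ := exists_rat_btwn h1.1
  obtain ⟨y, y1, y2⟩ := exists_rat_btwn h1.2
  refine ⟨Nat.pair N (Encodable.encode (x, y)), Nat.left_le_pair _ _, ⟨(x, y), by simp, x2, y1⟩, ?_⟩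
  rintro v hv ⟨p, p1, p2, p3⟩
  rw [Nat.unpair_pair, Encodable.encode_inj] at p1
  subst p1
  exact h2 ⟨x1.trans p2, p3.trans y2⟩ ⟨v, hv, rfl⟩

noncomputable def H (a : W) : ℕ → ZMod 2 := Hs (exS.choose a)
lemma Hd (a : Finset W) : ∃ n, ∀ (σ : W → ZMod 2) (x : W → ℕ), ∃ m ≤ n, ∀ u ∈ a, H u (x u + m) = σ u :=
  (digits _ exS.choose_spec id a (injOn_id _)).imp fun _ h => h _ fun _ _ _ _ => Iff.rfl

noncomputable def w (b a : W) : ZMod 2 := H a (osc a b)

theorem dens {I : Type} {b μ : I → W} (hμ : ∀ j, μ j ≤ b j) (hI : ∀ g, ∃ j, g ≤ μ j) :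
    ∃ g, ∀ a : Finset W, (∀ u ∈ a, g ≤ u) → ∀ σ : W → ZMod 2, ∃ j, ∀ u ∈ a, u < μ j ∧ w (b j) u = σ u := by
  by_contra! h
  choose a a1 σ k using h
  choose n hn using Hd
  obtain ⟨⟨c, N⟩, hp⟩ := pig fun g => ((a g).card, n (a g))
  obtain ⟨f, ⟨g, g1, g2⟩, j, x, hx⟩ := main (ι := Fin c) (A := {f | ∃ g, n (a g) = N ∧ Function.Injective f ∧ range f = a g})
    (fun g => by
      obtain ⟨y, y1, y2⟩ := hp g
      simp only [Prod.mk.injEq] at y2
      exact ⟨(a y).orderEmbOfFin y2.1, ⟨y, y2.2, RelEmbedding.injective _, by simp⟩,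
        fun i => y1.trans (a1 y _ (by simp))⟩) hμ hI N
  obtain ⟨m, m1, m2⟩ := hn (a g) (σ g) (Function.extend f x 0)
  obtain ⟨u, u1, u2⟩ := k g (j m)
  obtain ⟨i, rfl⟩ : u ∈ range f := g2.2 ▸ u1
  have := hx m (g1 ▸ m1) i
  exact u2 this.1 (by rw [w, this.2, ← m2 _ u1, g2.1.extend_apply])

end Pool.Agent.H.MP_a33cdf_gt
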