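import Pool.Agent.H.MP_a33cdf_gt.C

set_option autoImplicit false
open Set Classical Filter Topology

namespace Pool.Agent.H.MP_a33cdf_gt
open Pool.Agent.H.MP_7a24ab_lc

noncomputable def z (b a : W) : ZMod 2 := if a < b then w b a else 0

lemma zdet {d a b b' : W} (h : a < d) (hb : d ≤ b) (hb' : d ≤ b') (k : code d b = code d b') : z b a = z b' a := by
  rw [z, z, if_pos (h.trans_le hb), if_pos (h.trans_le hb'), w, w, osc_det h.le hb hb' k]

lemma delta {P : Type} (F : W → Finset W) (c : W → W → P) (hc : ∀ g, (range (c g)).Countable) :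
    ∃ g k, ∀ x, ∃ v, x ≤ v ∧ c g v = k ∧ ∀ u ∈ F v, u < g ∨ x ≤ u := by
  obtain ⟨d, hd, hR⟩ := clos (K := Unit) (fun (p : W × P) g => p.1 = g ∧ p.2 ∈ range (c g))
    (fun g => ((countable_singleton g).prod (hc g)).mono fun p hp => mem_prod.2 ⟨by exact hp.1, by exact hp.2⟩)
    fun _ p x => ¬ ∃ v, x ≤ v ∧ c p.1 v = p.2 ∧ ∀ u ∈ F v, u < p.1 ∨ x ≤ u
  obtain ⟨g, g1, g2⟩ := hd.fin ((F d).filter (· < d)).finite_toSet (by simp)
  refine ⟨g, c g d, fun x => by_contra fun k => ?_⟩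
  obtain ⟨y, y1, y2⟩ := hR () (g, c g d) g g1 ⟨rfl, d, rfl⟩ ⟨x, k⟩
  exact y2 ⟨d, y1.le, rfl, fun u hu => (lt_or_ge u d).imp (fun h => g2 u (by simp [*])) y1.le.trans⟩

variable {Y : Type} (ht : Y → W)

lemma DL {K : Type} [Countable K] (Q : K → Y → Prop) (g0 : W) : ∃ d, g0 < d ∧ ∀ k y, d ≤ ht y → Q k y →
    ∀ g < d, ∀ (a : Finset W) (σ : W → ZMod 2), ∃ v, Q k v ∧ g ≤ ht v ∧ code g (ht v) = code g (ht y) ∧
      ∀ u ∈ a, (u < d → z (ht v) u = z (ht y) u) ∧ (d ≤ u → u < ht v ∧ z (ht v) u = σ u) := by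
  let F : K × W × List (Finset W) → Y → Prop := fun p v => Q p.1 v ∧ p.2.1 ≤ ht v ∧ code p.2.1 (ht v) = p.2.2
  let R : Fin 3 → K × W × List (Finset W) → W → Prop := ![fun p x => ¬ ∃ t : Subtype (F p), x ≤ ht t.1,
    fun p g => ∀ a : Finset W, (∀ u ∈ a, g ≤ u) → ∀ σ : W → ZMod 2, ∃ t : Subtype (F p),
      ∀ u ∈ a, u < ht t.1 ∧ w (ht t.1) u = σ u, fun _ x => g0 < x]
  obtain ⟨d, hd, hR⟩ := clos (fun (p : Option K × W × List (Finset W)) g => p.2.1 = g ∧ sm g p.2.2)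
    (fun g => (countable_univ.prod ((countable_singleton g).prod (sm_c g))).mono fun p hp =>
      mem_prod.2 ⟨mem_univ _, mem_prod.2 ⟨by exact hp.1, by exact hp.2⟩⟩)
    fun i p x => p.1.elim (g0 < x) fun k => R i (k, p.2) x
  obtain ⟨x, x1, x2⟩ := hR 0 (none, ⊥, []) ⊥ hd.1 ⟨rfl, by simp [sm]⟩
    ((bdd (countable_singleton g0)).imp fun _ h => h _ rfl)
  refine ⟨d, x2.trans x1, fun k y hy hq g hg a σ => ?_⟩
  obtain ⟨c, c1, c2⟩ := hd.fin ((a.filter (· < d)).finite_toSet.insert g) (by simp [hg])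
  have un : ∀ x, ∃ t : Subtype (F (k, c, code c (ht y))), x ≤ ht t.1 := fun x => by
    by_contra q
    obtain ⟨z, z1, z2⟩ := hR 0 (some k, c, code c (ht y)) c c1 ⟨rfl, code_mem _⟩ ⟨x, q⟩
    exact z2 ⟨⟨y, hq, c1.le.trans hy, rfl⟩, z1.le.trans hy⟩
  obtain ⟨e, e1, e2⟩ := hR 1 (some k, c, code c (ht y)) c c1 ⟨rfl, code_mem _⟩ (dens (fun _ => le_rfl) un)
  obtain ⟨⟨v, t1, t2, t3⟩, t4⟩ := e2 (a.filter (d ≤ ·)) (by simpa using fun u _ hu => e1.le.trans hu) σ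
  have gc := (c2 g (.inl rfl)).le
  refine ⟨v, t1, gc.trans t2, det gc _ _ t2 (c1.le.trans hy) t3, fun u hu => ⟨fun h => zdet (c2 u (by simp [*])) t2
    (c1.le.trans hy) t3, fun h => ?_⟩⟩
  have := t4 u (by simp [*])
  exact ⟨this.1, (if_pos this.1).trans this.2⟩

def fac (d : W) (g : Y → ℝ) : Prop := ∀ y y', d ≤ ht y → d ≤ ht y' → code d (ht y) = code d (ht y') → g y = g y'
variable {ht}
lemma fac.mono {d d' : W} {g : Y → ℝ} (h : fac ht d g) (k : d ≤ d') : fac ht d' g := fun y y' h1 h2 h3 =>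
  h y y' (k.trans h1) (k.trans h2) (det k _ _ h1 h2 h3)
lemma fac_cl (d : W) : IsClosed {g | fac ht d g} := by
  simp only [fac, setOf_forall]
  exact isClosed_iInter fun _ => isClosed_iInter fun _ => isClosed_iInter fun _ => isClosed_iInter fun _ =>
    isClosed_iInter fun _ => isClosed_eq (continuous_apply _) (continuous_apply _)

lemma reps (hi : Function.Injective ht) (d : W) : ∃ P : Set Y, P.Countable ∧ ∀ y, ∃ v ∈ P, ∀ g, fac ht d g → g y = g v := by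
  let r : Y → W ⊕ List (Finset W) := fun y => if ht y < d then .inl (ht y) else .inr (code d (ht y))
  have : (range r).Countable := (((cIio d).image .inl).union ((sm_c d).image .inr)).mono (by
    rintro _ ⟨y, rfl⟩
    by_cases h : ht y < d
    · exact .inl ⟨_, h, (if_pos h).symm⟩
    · exact .inr ⟨_, code_mem _, (if_neg h).symm⟩)
  have := this.to_subtype
  refine ⟨_, countable_range (rangeSplitting r), fun y => ⟨_, ⟨⟨_, y, rfl⟩, rfl⟩, fun g hg => ?_⟩⟩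
  have k := apply_rangeSplitting r ⟨_, y, rfl⟩
  generalize rangeSplitting r _ = v at k
  simp only [r] at k
  split_ifs at k with h1 h2 h2
  · rw [hi (Sum.inl.inj k)]
  · exact hg _ _ (not_lt.1 h2) (not_lt.1 h1) (Sum.inr.inj k).symm

lemma sq {P : Set Y} (hP : P.Countable) {S : Set (Y → ℝ)} {f : Y → ℝ} (h : f ∈ closure S) :
    ∃ g : ℕ → Y → ℝ, (∀ n, g n ∈ S) ∧ ∀ y ∈ P, Tendsto (g · y) atTop (𝓝 (f y)) := by
  have := hP.to_subtype
  obtain ⟨g, g1, g2⟩ := mem_closure_iff_seq_limit.1 (map_mem_closure (f := fun (g : Y → ℝ) (y : P) => g y) (by fun_prop) h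
    (mapsTo_image _ S))
  choose G G1 G2 using g1
  exact ⟨G, G1, fun y hy => by simpa [← G2] using tendsto_pi_nhds.1 g2 ⟨y, hy⟩⟩

variable [TopologicalSpace Y] (hY : IsInducing fun y => z (ht y))
include hY

lemma nb {U : Set Y} (hU : IsOpen U) {y : Y} (hy : y ∈ U) :
    ∃ a : Finset W, ∀ v, (∀ u ∈ a, z (ht v) u = z (ht y) u) → v ∈ U := by
  obtain ⟨V, hV, rfl⟩ := hY.isOpen_iff.1 hU
  obtain ⟨a, u, h1, h2⟩ := isOpen_pi_iff.1 hV _ hy
  exact ⟨a, fun v hv => h2 fun i hi => by simpa [hv i hi] using (h1 i hi).2⟩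

lemma exfac {g : Y → ℝ} (hg : Continuous g) : ∃ d, fac ht d g := by
  obtain ⟨d, d1, hd⟩ := DL ht (fun (q : ℚ) y => q < g y) ⊥
  have : ∀ y y', d ≤ ht y → d ≤ ht y' → code d (ht y) = code d (ht y') → g y' ≤ g y := fun y y' h1 h2 h3 => by
    by_contra! k
    obtain ⟨q, q1, q2⟩ := exists_rat_btwn k
    obtain ⟨a, ha⟩ := nb hY (isOpen_lt hg continuous_const) (show y ∈ {y | g y < q} from q1)
    obtain ⟨v, v1, -, -, v2⟩ := hd q y' h2 q2 ⊥ d1 a (z (ht y))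
    exact v1.not_gt (ha v fun u hu => (lt_or_ge u d).elim (fun h => ((v2 u hu).1 h).trans (zdet h h2 h1 h3.symm))
      fun h => ((v2 u hu).2 h).2)
  exact ⟨d, fun y y' h1 h2 h3 => le_antisymm (this _ _ h2 h1 h3.symm) (this _ _ h1 h2 h3)⟩

theorem core {K : Set (Y → ℝ)} (hK : IsCompact K) {f : Y → ℝ} {G : W → Y → ℝ} (GK : ∀ n, G n ∈ K)
    (hc : ∀ d, ∀ h ∈ closure (G '' Iio d), Continuous h) (h2 : ∀ n v, ht v < n → G n v = f v) : ∃ n, G n = f := by
  by_contra! h1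
  choose y h1 using fun n => Function.ne_iff.1 (h1 n)
  have hy : ∀ n, n ≤ ht (y n) := fun n => not_lt.1 fun k => h1 n (h2 _ _ k)
  have Gc : ∀ n, Continuous (G n) := fun n => by
    obtain ⟨d, hd⟩ := bdd (countable_singleton n)
    exact hc d _ (subset_closure ⟨n, hd n rfl, rfl⟩)
  have : ∀ n, ∃ r : ℚ × ℚ, r.1 * f (y n) < r.2 ∧ r.2 < r.1 * G n (y n) := fun n => by
    rcases (h1 n).lt_or_gt with h | h
    · obtain ⟨q, hq⟩ := exists_rat_btwn (neg_lt_neg h); exact ⟨(-1, q), by simpa using hq⟩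
    · obtain ⟨q, hq⟩ := exists_rat_btwn h; exact ⟨(1, q), by simpa using hq⟩
  choose r r1 r2 using this
  choose s hs using fun n => nb hY (isOpen_lt continuous_const (continuous_const.mul (Gc n)))
    (show y n ∈ {v | ((r n).2 : ℝ) < (r n).1 * G n v} from r2 n)
  obtain ⟨g0, ⟨⟨ε, p⟩, k, τ⟩, hΔ⟩ := delta s (fun g n => (r n, ((s n).filter (g ≤ ·)).card, code g (ht (y n)))) fun g =>
    (countable_univ.prod (countable_univ.prod (sm_c g))).mono (by
      rintro _ ⟨n, rfl⟩; exact ⟨trivial, trivial, code_mem _⟩)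
  let J : W → Prop := fun n => g0 ≤ n ∧ (r n, ((s n).filter (g0 ≤ ·)).card, code g0 (ht (y n))) = ((ε, p), k, τ)
  have : ∀ n, ∃ sv : Fin k → W, J n → Function.Injective sv ∧ range sv = (s n).filter (g0 ≤ ·) := fun n => by
    by_cases h : J n
    · exact ⟨Finset.orderEmbOfFin _ (congrArg (·.2.1) h.2), fun _ => ⟨RelEmbedding.injective _, by simp⟩⟩
    · exact ⟨fun _ => ⊥, fun q => (h q).elim⟩
  choose sv hsv using this
  have hJ : ∀ x, ∃ n, J n ∧ x ≤ n ∧ ∀ i, x ≤ sv n i := fun x => by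
    obtain ⟨n, n1, n2, n3⟩ := hΔ (max x g0)
    have j : J n := ⟨le_of_max_le_right n1, n2⟩
    refine ⟨n, j, le_of_max_le_left n1, fun i => ?_⟩
    have := (hsv n j).2 ▸ mem_range_self (f := sv n) i
    simp only [Finset.coe_filter, mem_setOf_eq] at this
    exact le_of_max_le_left ((n3 _ this.1).resolve_left this.2.not_gt)
  have hi : ∀ n m, J n → J m → (∀ i, z (ht (y m)) (sv n i) = z (ht (y n)) (sv n i)) → (p : ℝ) < ε * G n (y m) :=
    fun n m jn jm h => by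
      have := hs n (y m) fun u hu => (lt_or_ge u g0).elim (fun q => zdet q (jm.1.trans (hy m)) (jn.1.trans (hy n))
        ((congrArg (·.2.2) jm.2).trans (congrArg (·.2.2) jn.2).symm)) fun q => by
          obtain ⟨i, rfl⟩ : u ∈ range (sv n) := by rw [(hsv n jn).2]; simp [*]
          exact h i
      simpa [show r n = (ε, p) from congrArg (·.1) jn.2] using this
  obtain ⟨d0, d1, d2⟩ := DL ht (fun (_ : Unit) v => ∃ m, J m ∧ v = y m) ⊥
  obtain ⟨n0, n1, n2, -⟩ := hJ d0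
  have lo : ε * f (y n0) < p := by simpa [show r n0 = (ε, p) from congrArg (·.1) n1.2] using r1 n0
  let S := exS.choose
  let E : W → W → W → ℕ → W → Prop := fun d m η N n => J n ∧ η < n ∧ n < d ∧ ∀ i, η < sv n i ∧ sv n i < d ∧
    code η (sv n i) = code η (sv m i) ∧ ∀ j ≤ N, j ∈ S (sv n i) ↔ j ∈ S (sv m i)
  have : ∀ x, ∃ (d d' m : W) (t : Finset W), x ≤ d ∧ d ≤ d' ∧ J m ∧ (∀ i, d' ≤ sv m i) ∧ (∀ u ∈ t, u < d') ∧
      ∀ η < d, ∀ N (v : ℕ → Y), (∀ l ≤ N, d' ≤ ht (v l)) → ∃ n, E d m η N n ∧ ∀ l ≤ N, (p : ℝ) < ε * G n (v l) →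
        ¬ ∀ u ∈ t, z (ht (v l)) u = z (ht (y n0)) u := fun x => by
    let P := W × (Fin k → List (Finset W)) × ℕ × (Fin k → Finset ℕ)
    let R : Fin 3 → P → W → Prop := ![fun _ g => max x (ht (y n0)) < g, fun q g => fac ht g (G q.1),
      fun q g => ∃ n, J n ∧ q.1 < n ∧ n < g ∧ ∀ i, q.1 < sv n i ∧ sv n i < g ∧ code q.1 (sv n i) = q.2.1 i ∧
        ∀ j ≤ q.2.2.1, j ∈ S (sv n i) ↔ j ∈ q.2.2.2 i]
    obtain ⟨d, hd, hR⟩ := clos (fun (q : P) g => q.1 = g ∧ ∀ i, sm g (q.2.1 i)) (fun g => ((countable_singleton g).prod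
      ((countable_pi fun _ : Fin k => sm_c g).prod countable_univ)).mono fun q hq =>
        mem_prod.2 ⟨by exact hq.1, mem_prod.2 ⟨by exact hq.2, mem_univ _⟩⟩) R
    obtain ⟨x0, x1, x2⟩ := hR 0 (⊥, fun _ => [], 0, fun _ => ∅) ⊥ hd.1 ⟨rfl, by simp [sm]⟩
      ((bdd (countable_singleton _)).imp fun _ h => h _ rfl)
    have xd : max x (ht (y n0)) < d := lt_trans x2 x1
    have fd : ∀ n < d, fac ht d (G n) := fun n hn => by
      obtain ⟨g, g1, g2⟩ := hR 1 (n, fun _ => [], 0, fun _ => ∅) n hn ⟨rfl, by simp [sm]⟩ (exfac hY (Gc n))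
      exact fac.mono g2 g1.le
    obtain ⟨d', e1, e2⟩ := DL ht (fun (_ : Unit) _ => True) d
    obtain ⟨m, m1, m2, m3⟩ := hJ d'
    have : ∀ q : Iio d × ℕ, ∃ n, E d m q.1 q.2 n := fun q => by
      obtain ⟨g, g1, n, g2, g3, g4, g5⟩ := hR 2 (q.1, fun i => code q.1 (sv m i), q.2,
        fun i => (Finset.Iic q.2).filter (· ∈ S (sv m i))) q.1 q.1.2 ⟨rfl, fun i => code_mem _⟩ (by
          obtain ⟨g, hg⟩ := bdd ((countable_range (sv m)).insert m)
          exact ⟨g, m, m1, (q.1.2.trans e1).trans_le m2, hg _ (.inl rfl), fun i => ⟨(q.1.2.trans e1).trans_le (m3 i),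
            hg _ (.inr ⟨i, rfl⟩), rfl, fun j hj => by simpa using fun _ => hj⟩⟩)
      exact ⟨n, g2, g3, g4.trans g1, fun i => ⟨(g5 i).1, (g5 i).2.1.trans g1, (g5 i).2.2.1, fun j hj =>
        ((g5 i).2.2.2 j hj).trans (by simpa using fun _ => hj)⟩⟩
    choose sel hsel using this
    have : Nonempty (Iio d) := ⟨⟨⊥, hd.1⟩⟩
    let U := Ultrafilter.of (atTop : Filter (Iio d × ℕ))
    have hE : ∀ η < d, ∀ N, ∀ᶠ q in U, E d m η N (sel q) := fun η hη N => Ultrafilter.of_le _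
      ((eventually_ge_atTop (⟨η, hη⟩, N)).mono fun q hq => by
        obtain ⟨a1, a2, a3, a4⟩ := hsel q
        exact ⟨a1, lt_of_le_of_lt hq.1 a2, a3, fun i => ⟨lt_of_le_of_lt hq.1 (a4 i).1, (a4 i).2.1, det hq.1 _ _ (a4 i).1.le
          ((q.1.2.trans e1).le.trans (m3 i)) (a4 i).2.2.1, fun j hj => (a4 i).2.2.2 j (hj.trans hq.2)⟩⟩)
    obtain ⟨h, -, hl⟩ := hK.ultrafilter_le_nhds (U.map (G ∘ sel)) (le_principal_iff.2 (mem_map.2 (univ_mem' fun q => GK _)))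
    have hl : Tendsto (G ∘ sel) U (𝓝 h) := hl
    have hcl : h ∈ closure (G '' Iio d) := mem_closure_of_tendsto hl (.of_forall fun q => ⟨_, (hsel q).2.2.1, rfl⟩)
    have hf : fac ht d h := closure_minimal (by rintro _ ⟨n, hn, rfl⟩; exact fd n hn) (fac_cl d) hcl
    have h0 : h (y n0) = f (y n0) := tendsto_nhds_unique (tendsto_pi_nhds.1 hl _) (tendsto_const_nhds.congr'
      ((hE _ (lt_of_le_of_lt (le_max_right _ _) xd) 0).mono fun q hq => (h2 _ _ hq.2.1).symm))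
    obtain ⟨t, htt⟩ := nb hY (U := {v | (ε : ℝ) * h v < p}) (isOpen_lt (continuous_const.mul (hc d h hcl)) continuous_const)
      (show y n0 ∈ {v | (ε : ℝ) * h v < p} by simpa [h0] using lo)
    refine ⟨d, d', m, t.filter (· < d'), le_of_max_le_left xd.le, e1.le, m1, m3, by simp, fun η hη N v hv => ?_⟩
    by_contra! q
    obtain ⟨l, l1, l2⟩ := (Ultrafilter.finite_biUnion_mem_iff (f := U) (finite_Iic N) (s := fun l => {q | (p : ℝ) <
      ε * G (sel q) (v l) ∧ ∀ u ∈ t.filter (· < d'), z (ht (v l)) u = z (ht (y n0)) u})).1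
      (mem_of_superset (hE η hη N) fun a ha => by simp only [mem_iUnion, exists_prop]; exact q _ ha)
    obtain ⟨v', -, a1, a2, a3⟩ := e2 () (v l) (hv l l1) trivial d e1 t (z _)
    obtain ⟨q0, -, a4⟩ := Filter.nonempty_of_mem l2
    have := htt v' fun u hu => (lt_or_ge u d').elim (fun c => ((a3 u hu).1 c).trans (a4 u (by simp [*])))
      fun c => ((a3 u hu).2 c).2
    rw [mem_setOf_eq, hf _ _ a1 (e1.le.trans (hv l l1)) a2] at this
    exact this.not_ge (ge_of_tendsto ((tendsto_pi_nhds.1 hl _).const_mul _) (mem_of_superset l2 fun _ c => c.1.le))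
  choose d d' m t b1 b2 b3 b4 b5 b6 using this
  choose N hN using fun x => digits _ exS.choose_spec (Sum.elim (sv (m x)) id) (Finset.univ.disjSum (t x)) (by
    rintro (i | u) hu (j | u') hu' e
    · exact congrArg _ ((hsv _ (b3 x)).1 e)
    · exact ((b5 x u' (by simpa using hu')).not_ge (le_of_le_of_eq (b4 x i) e)).elim
    · exact ((b5 x u (by simpa using hu)).not_ge (le_of_le_of_eq (b4 x j) e.symm)).elim
    · exact congrArg _ e)
  obtain ⟨g1, ⟨t0, l, n⟩, hD⟩ := delta t (fun g x => ([(t x).filter (· < g)], ((t x).filter (g ≤ ·)).card, N x)) fun g =>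
    ((sm_c g).prod countable_univ).mono (by rintro _ ⟨n, rfl⟩; exact ⟨by simp [sm], trivial⟩)
  obtain ⟨a, ⟨x, a0, a1, a2, a3, a4⟩, η, e, j, j1, j2⟩ := main2 (ι := Bool ⊕ Fin k ⊕ Fin l) (A := {a | ∃ x,
      ([(t x).filter (· < g1)], N x) = (t0, n) ∧ a (.inl false) = d x ∧ a (.inl true) = d' x ∧
      (∀ i, a (.inr (.inl i)) = sv (m x) i) ∧ ∀ u ∈ t x, g1 ≤ u → u ∈ range a}) (fun g => by
        obtain ⟨x, x1, x2, x3⟩ := hD (max g g1)
        simp only [Prod.mk.injEq] at x2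
        have xd := (le_of_max_le_left x1).trans (b1 x)
        refine ⟨Sum.elim (fun b => if b then d' x else d x) (Sum.elim (sv (m x)) (Finset.orderEmbOfFin _ x2.2.1)),
          ⟨x, by simp [x2], rfl, rfl, fun _ => rfl, fun u hu h => ?_⟩, ?_⟩
        · obtain ⟨i, hi⟩ : u ∈ range (Finset.orderEmbOfFin _ x2.2.1) := by simp [*]
          exact ⟨.inr (.inr i), hi⟩
        rintro ((_ | _) | i | i)
        exacts [xd, xd.trans (b2 x), xd.trans ((b2 x).trans (b4 x i)), by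
          have := Finset.mem_filter.1 (Finset.orderEmbOfFin_mem _ x2.2.1 i)
          exact le_of_max_le_left ((x3 _ this.1).resolve_left this.2.not_gt)])
    (I := {m // J m ∧ ∀ s ∈ t0, ∀ u ∈ s, z (ht (y m)) u = z (ht (y n0)) u}) (b := fun m => ht (y m.1)) (fun _ => le_rfl)
    (fun g => by
      obtain ⟨_, ⟨m, m1, rfl⟩, -, -, m2⟩ := d2 () (y n0) (n2.trans (hy _)) ⟨n0, n1, rfl⟩ ⊥ d1
        (insert (max g d0) (t0.toFinset.biUnion id)) (z (ht (y n0)))
      refine ⟨⟨m, m1, fun s hs u hu => ?_⟩, le_of_max_le_left ((m2 _ (by simp)).2 (le_max_right _ _)).1.le⟩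
      have := m2 u (by simpa using .inr ⟨s, hs, hu⟩)
      exact (lt_or_ge u d0).elim this.1 fun c => (this.2 c).2) n
  obtain ⟨rfl, rfl⟩ := Prod.mk.inj a0
  obtain ⟨ν, ⟨c1, c2, c3, c4⟩, c5⟩ := b6 x η (a1 ▸ (j1 _).1) (N x) (fun l => y (j l).1)
    fun l hl => (a2 ▸ (j1 _).2).le.trans (j2 l hl).1
  obtain ⟨i, i1, i2⟩ := hN x (fun u => S (Sum.elim (sv ν) id u)) (by
      rintro (i | u) - j hj
      exacts [(c4 i).2.2.2 j hj, Iff.rfl]) (Sum.elim (fun i => z (ht (y ν)) (sv ν i)) (z (ht (y n0))))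
    fun u => osc (Sum.elim (sv ν) id u) (ht (y (j 0).1))
  have key : ∀ u i', η < u → u < e → code η u = code η (a i') → z (ht (y (j i).1)) u = Hs (S u) (osc u (ht (y (j 0).1)) + i) :=
    fun u i' q1 q2 q3 => by rw [z, if_pos (q2.trans_le (j2 i i1).1), w, (j2 i i1).2 u i' q1 q2 q3]; rfl
  refine c5 i i1 (hi _ _ c1 (j i).2.1 fun i' => (key _ (.inr (.inl i')) (c4 i').1 ((c4 i').2.1.trans (a1 ▸ (j1 _).2))
    (a3 i' ▸ (c4 i').2.2.1)).trans (i2 (.inl i') (by simp))) fun u hu => ?_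
  rcases lt_or_ge u g1 with h | h
  · exact (j i).2.2 _ List.mem_cons_self u (by simp [*])
  · obtain ⟨i', rfl⟩ := a4 u hu h
    exact (key _ i' (j1 _).1 (j1 _).2 rfl).trans (i2 (.inr _) (by simpa))

end Pool.Agent.H.MP_a33cdf_gt
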